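import Pool.Agent.PXE.Stmts

/-!
# Squad PXE, row RES: the resultant on the lines of the generator
-/

set_option autoImplicit false

namespace Pool.Agent.PXE.H20

open Polynomial
open MvPolynomial (pderiv)
open Pool.Agent.PX (IsLo)
open Pool.Agent.PW (Ph Free genZ)
open Pool.Agent.Helper12_FV (onl topp)
open Pool.Agent.UO (point)

/-- the monomials of a form contain at most `c + 1` variables -/
theorem mon_card {σ R : Type} [CommRing R] [IsDomain R] [CharZero R] {c : ℕ}
    {f : MvPolynomial σ R} (hf : ∀ i, (pderiv i f).vars.card ≤ c) {s : σ →₀ ℕ}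
    (hs : s ∈ f.support) : s.support.card ≤ c + 1 := by
  classical
  by_cases h0 : s.support = ∅
  · rw [h0]
    simp
  obtain ⟨i, hi⟩ := Finset.nonempty_iff_ne_empty.2 h0
  have hsi : s i ≠ 0 := Finsupp.mem_support_iff.1 hi
  have h2 : s - Finsupp.single i 1 + Finsupp.single i 1 = s := by
    apply tsub_add_cancel_of_le
    rw [Finsupp.single_le_iff]
    omega
  have h3 : s - Finsupp.single i 1 ∈ (pderiv i f).support := by
    rw [MvPolynomial.mem_support_iff, MvPolynomial.coeff_pderiv, h2]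
    exact mul_ne_zero (MvPolynomial.mem_support_iff.1 hs) (Nat.cast_add_one_ne_zero _)
  have h4 : s.support.erase i ⊆ (pderiv i f).vars := by
    intro j hj
    rw [Finset.mem_erase] at hj
    refine (MvPolynomial.mem_vars_iff_mem_support j).2 ⟨_, h3, ?_⟩
    rw [Finsupp.mem_support_iff, Finsupp.tsub_apply, Finsupp.single_eq_of_ne hj.1]
    simpa using Finsupp.mem_support_iff.1 hj.2
  have h5 := (Finset.card_le_card h4).trans (hf i)
  rw [Finset.card_erase_of_mem hi] at h5
  omega

/-- the form over `ℚ` in the variables with indices in `ℕ` -/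
noncomputable def up {n : ℕ} (f : MvPolynomial (Fin n) ℤ) : MvPolynomial ℕ ℚ :=
  MvPolynomial.rename Fin.val (MvPolynomial.map (Int.castRingHom ℚ) f)

theorem up_ne {n : ℕ} {f : MvPolynomial (Fin n) ℤ} (hf : f ≠ 0) : up f ≠ 0 := by
  unfold up
  intro h
  apply hf
  have h1 : MvPolynomial.map (Int.castRingHom ℚ) f = 0 := by
    apply MvPolynomial.rename_injective _ (Fin.val_injective (n := n))
    rw [h, map_zero]
  apply MvPolynomial.map_injective (Int.castRingHom ℚ) Int.cast_injective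
  rw [h1, map_zero]

theorem lo_up {n c : ℕ} {f : MvPolynomial (Fin n) ℤ} (hf : ∀ i, (pderiv i f).vars.card ≤ c) :
    IsLo c (up f) := by
  classical
  intro i
  unfold up
  by_cases hi : i < n
  · have h1 := MvPolynomial.pderiv_rename (Fin.val_injective (n := n)) ⟨i, hi⟩
      (MvPolynomial.map (Int.castRingHom ℚ) f)
    have h2 : ((⟨i, hi⟩ : Fin n) : ℕ) = i := rfl
    rw [h2] at h1
    rw [h1, MvPolynomial.pderiv_map]
    refine (Finset.card_le_card (MvPolynomial.vars_rename _ _)).trans ?_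
    refine Finset.card_image_le.trans ?_
    exact (Finset.card_le_card (MvPolynomial.vars_map _ _)).trans (hf ⟨i, hi⟩)
  · have h1 : pderiv i (MvPolynomial.rename Fin.val
        (MvPolynomial.map (Int.castRingHom ℚ) f) : MvPolynomial ℕ ℚ) = 0 := by
      apply MvPolynomial.pderiv_eq_zero_of_notMem_vars
      intro h
      have h2 := MvPolynomial.vars_rename _ _ h
      obtain ⟨k, -, hk⟩ := Finset.mem_image.1 h2
      exact hi (hk ▸ k.2)
    rw [h1]
    simp

/-- killing the variables outside `J` -/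
noncomputable def kl {n : ℕ} (J : Finset ℕ) : MvPolynomial (Fin n) ℤ →ₐ[ℤ] MvPolynomial (Fin n) ℤ :=
  MvPolynomial.aeval fun i => if (i : ℕ) ∈ J then MvPolynomial.X i else 0

theorem kl_coeff {n : ℕ} (J : Finset ℕ) (h : MvPolynomial (Fin n) ℤ) (s : Fin n →₀ ℕ)
    (hs : ∀ i ∈ s.support, (i : ℕ) ∈ J) :
    MvPolynomial.coeff s (kl J h) = MvPolynomial.coeff s h := by
  classical
  induction h using MvPolynomial.induction_on' with
  | monomial u a =>
    unfold kl
    rw [MvPolynomial.aeval_monomial, MvPolynomial.algebraMap_eq]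
    by_cases hu : ∀ i ∈ u.support, (i : ℕ) ∈ J
    · have h1 : (u.prod fun i k => (if (i : ℕ) ∈ J then
          (MvPolynomial.X i : MvPolynomial (Fin n) ℤ) else 0) ^ k) =
          u.prod fun i k => (MvPolynomial.X i : MvPolynomial (Fin n) ℤ) ^ k :=
        Finsupp.prod_congr fun i hi => by rw [if_pos (hu i hi)]
      rw [h1, ← MvPolynomial.monomial_eq]
    · push Not at hu
      obtain ⟨i, hi, hiK⟩ := hu
      have h1 : (u.prod fun i k => (if (i : ℕ) ∈ J then
          (MvPolynomial.X i : MvPolynomial (Fin n) ℤ) else 0) ^ k) = 0 := by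
        refine Finset.prod_eq_zero hi ?_
        show (if (i : ℕ) ∈ J then (MvPolynomial.X i : MvPolynomial (Fin n) ℤ) else 0) ^ u i = 0
        rw [if_neg hiK]
        exact zero_pow (Finsupp.mem_support_iff.1 hi)
      rw [h1, mul_zero, MvPolynomial.coeff_zero, MvPolynomial.coeff_monomial, if_neg]
      intro h2
      exact hiK (hs i (h2 ▸ hi))
  | add p q hp hq => rw [map_add, MvPolynomial.coeff_add, MvPolynomial.coeff_add, hp, hq]

theorem eval_kl {n : ℕ} (J : Finset ℕ) (h : MvPolynomial (Fin n) ℤ) (v : Fin n → ℤ) :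
    MvPolynomial.eval v (kl J h) =
      MvPolynomial.eval (fun i : Fin n => if (i : ℕ) ∈ J then v i else 0) h := by
  have h1 : (MvPolynomial.eval v).comp (kl J : MvPolynomial (Fin n) ℤ →ₐ[ℤ] _).toRingHom =
      MvPolynomial.eval (fun i : Fin n => if (i : ℕ) ∈ J then v i else 0) := by
    apply MvPolynomial.ringHom_ext
    · intro z
      simp
    · intro i
      unfold kl
      by_cases hi : (i : ℕ) ∈ J <;> simp [hi]
  exact RingHom.congr_fun h1 h

/-- the direction -/
theorem ex_dir {n : ℕ} (J : Finset ℕ) (f g : MvPolynomial (Fin n) ℤ) (s s' : Fin n →₀ ℕ)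
    (hs : s ∈ f.support) (hs' : s' ∈ g.support) (h : ∀ i ∈ s.support, (i : ℕ) ∈ J)
    (h' : ∀ i ∈ s'.support, (i : ℕ) ∈ J) : ∃ β : ℕ → ℤ, (∀ i, i ∉ J → β i = 0) ∧
      MvPolynomial.eval (fun i : Fin n => β i) f ≠ 0 ∧
      MvPolynomial.eval (fun i : Fin n => β i) g ≠ 0 := by
  classical
  have h1 : kl J f ≠ 0 := by
    intro h0
    have h2 := kl_coeff J f s h
    rw [h0, MvPolynomial.coeff_zero] at h2
    exact MvPolynomial.mem_support_iff.1 hs h2.symm
  have h2 : kl J g ≠ 0 := by
    intro h0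
    have h2 := kl_coeff J g s' h'
    rw [h0, MvPolynomial.coeff_zero] at h2
    exact MvPolynomial.mem_support_iff.1 hs' h2.symm
  have h3 : kl J f * kl J g ≠ 0 := mul_ne_zero h1 h2
  obtain ⟨v, hv⟩ : ∃ v : Fin n → ℤ, MvPolynomial.eval v (kl J f * kl J g) ≠ 0 := by
    by_contra hcon
    push Not at hcon
    apply h3
    apply MvPolynomial.funext
    intro v
    rw [hcon v, map_zero]
  rw [map_mul, eval_kl, eval_kl] at hv
  refine ⟨fun i => if h : i < n then (if i ∈ J then v ⟨i, h⟩ else 0) else 0, fun i hi => ?_, ?_, ?_⟩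
  · by_cases hin : i < n
    · simp [hin, hi]
    · simp [hin]
  · have h4 : (fun i : Fin n => if h : (i : ℕ) < n then (if (i : ℕ) ∈ J then v ⟨i, h⟩ else 0) else 0)
        = fun i : Fin n => if (i : ℕ) ∈ J then v i else 0 := by
      funext i
      rw [dif_pos i.2]
    rw [h4]
    exact left_ne_zero_of_mul hv
  · have h4 : (fun i : Fin n => if h : (i : ℕ) < n then (if (i : ℕ) ∈ J then v ⟨i, h⟩ else 0) else 0)
        = fun i : Fin n => if (i : ℕ) ∈ J then v i else 0 := by
      funext i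
      rw [dif_pos i.2]
    rw [h4]
    exact right_ne_zero_of_mul hv

/-- the restriction to the line is the image of `psi` -/
theorem onl_psi {n : ℕ} {D K R : Type} [CommRing D] [Algebra ℚ D] [Field K] [Algebra D K]
    [CommRing R] (ζ : ℕ → D) (J : Finset ℕ) (β : ℕ → K) (hβ : ∀ i, i ∉ J → β i = 0)
    (φ : MvPolynomial ℕ K →+* R) (P Q : Fin n → R)
    (hP : ∀ s : Fin n, P s = if (s : ℕ) ∈ J then φ (MvPolynomial.X (s : ℕ)) else
      φ (MvPolynomial.C (algebraMap D K (ζ s))))
    (hQ : ∀ s : Fin n, Q s = φ (MvPolynomial.C (β s))) (f : MvPolynomial (Fin n) ℤ) :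
    (psi β (MvPolynomial.map (algebraMap D K) (Ph ζ J (up f)))).map φ = onl P Q f := by
  have h1 : (mapRingHom φ).comp ((psi β : MvPolynomial ℕ K →ₐ[K] _).toRingHom.comp
      ((MvPolynomial.map (algebraMap D K)).comp ((Ph ζ J : MvPolynomial ℕ ℚ →ₐ[ℚ] _).toRingHom.comp
      ((MvPolynomial.rename Fin.val : MvPolynomial (Fin n) ℚ →ₐ[ℚ] _).toRingHom.comp
      (MvPolynomial.map (Int.castRingHom ℚ)))))) = onl P Q := by
    apply MvPolynomial.ringHom_ext
    · intro z
      have h2 : (MvPolynomial.C z : MvPolynomial (Fin n) ℤ) = (z : MvPolynomial (Fin n) ℤ) := by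
        simp
      rw [h2, map_intCast, map_intCast]
    · intro s
      rw [Helper12_FV.onl_X, hP, hQ]
      by_cases hs : (s : ℕ) ∈ J
      · simp [hs, psi, Ph]
      · simp [hs, psi, Ph, hβ _ hs]
  exact RingHom.congr_fun h1 f

theorem eval₂_int {n : ℕ} {R : Type} [CommRing R] (β : Fin n → ℤ) (h : MvPolynomial (Fin n) ℤ) :
    MvPolynomial.eval₂ (Int.castRingHom R) (fun i => (β i : R)) h =
      ((MvPolynomial.eval β h : ℤ) : R) := by
  have h1 : MvPolynomial.eval₂Hom (Int.castRingHom R) (fun i => (β i : R)) =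
      (Int.castRingHom R).comp (MvPolynomial.eval β) := by
    apply MvPolynomial.ringHom_ext
    · intro z
      simp
    · intro i
      simp
  exact RingHom.congr_fun h1 h

/-- Row RES. -/
theorem res (hC : CopStmt) (hR : RpqStmt) (hD : DstStmt) : ResStmt := by
  classical
  intro c
  obtain ⟨M, m, hM⟩ := hC c (2 * c + 2)
  refine ⟨M, m + M, ?_⟩
  intro t1 t2 n f g ht1 ht2 hf hg hdf hdg hfg
  have hf0 : f ≠ 0 := by
    rintro rfl
    simp at hdf
  have hg0 : g ≠ 0 := by
    rintro rfl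
    simp at hdg
  obtain ⟨sf, hsf⟩ := MvPolynomial.support_nonempty.2 (Helper12_FV.topp_ne_zero hf0)
  obtain ⟨sg, hsg⟩ := MvPolynomial.support_nonempty.2 (Helper12_FV.topp_ne_zero hg0)
  have htop : ∀ (p : MvPolynomial (Fin n) ℤ) (s : Fin n →₀ ℕ), s ∈ (topp p).support →
      s ∈ p.support := by
    intro p s hs
    unfold topp at hs
    rw [MvPolynomial.mem_support_iff, MvPolynomial.coeff_homogeneousComponent] at hs
    rw [MvPolynomial.mem_support_iff]
    intro h
    apply hs
    rw [h, ite_self]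
  obtain ⟨J1, hJ1⟩ : ∃ J1 : Finset ℕ, J1 = sf.support.image (Fin.val : Fin n → ℕ) ∪
    sg.support.image (Fin.val : Fin n → ℕ) := ⟨_, rfl⟩
  have hJ1c : J1.card ≤ 2 * c + 2 := by
    rw [hJ1]
    refine (Finset.card_union_le _ _).trans ?_
    have h1 := mon_card hf (htop f sf hsf)
    have h2 := mon_card hg (htop g sg hsg)
    have h3 : (sf.support.image (Fin.val : Fin n → ℕ)).card ≤ sf.support.card :=
      Finset.card_image_le
    have h4 : (sg.support.image (Fin.val : Fin n → ℕ)).card ≤ sg.support.card :=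
      Finset.card_image_le
    omega
  let D := MvPolynomial (Fin m ⊕ Fin m ⊕ ℕ) ℚ
  let K := FractionRing D
  obtain ⟨J, hJ, hJc, hres⟩ := hM ℚ D K (genZ ℚ m n) (Pool.Agent.PW.aGnf ℚ m n m le_rfl)
    (up f) (up g) J1 (lo_up hf) (lo_up hg) (up_ne hf0) (up_ne hg0) (hR n f g hf0 hfg) hJ1c
  obtain ⟨β, hβJ, hβf, hβg⟩ := ex_dir J (topp f) (topp g) sf sg hsf hsg
    (fun i hi => hJ (by
      rw [hJ1]
      exact Finset.mem_union_left _ (Finset.mem_image_of_mem _ hi)))
    (fun i hi => hJ (by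
      rw [hJ1]
      exact Finset.mem_union_right _ (Finset.mem_image_of_mem _ hi)))
  have hK : CharZero K := by infer_instance
  let R := FractionRing (MvPolynomial ℕ K)
  have hRz : CharZero R := by infer_instance
  let φ : MvPolynomial ℕ K →+* R := algebraMap (MvPolynomial ℕ K) R
  have hφ : Function.Injective φ := IsFractionRing.injective (MvPolynomial ℕ K) R
  let ψ : D →+* R := (φ.comp MvPolynomial.C).comp (algebraMap D K)
  obtain ⟨w2, z2, hp2⟩ := RS.H25.fre R n m t2 (J.filter (· < n))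
    (fun j => ψ (MvPolynomial.X (Sum.inl j))) (fun j => ψ (MvPolynomial.X (Sum.inr (Sum.inl j))))
    (fun i => φ (MvPolynomial.X i)) (fun j hj => (Finset.mem_filter.1 hj).2)
    (le_trans (Nat.add_le_add_left ((Finset.card_filter_le _ _).trans hJc) _) ht2)
  obtain ⟨w1, z1, hp1⟩ := RS.H25.fre R n 0 t1 (J.filter (· < n))
    (fun j => Fin.elim0 j) (fun j => Fin.elim0 j)
    (fun i => ((β i : ℤ) : R)) (fun j hj => (Finset.mem_filter.1 hj).2)
    (by
      rw [zero_add]
      exact ((Finset.card_filter_le _ _).trans hJc).trans ht1)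
  have hP : ∀ s : Fin n, point n w2 z2 (s : ℕ) = if (s : ℕ) ∈ J then φ (MvPolynomial.X (s : ℕ)) else
      φ (MvPolynomial.C (algebraMap D K (genZ ℚ m n s))) := by
    intro s
    rw [hp2 s]
    by_cases hs : (s : ℕ) ∈ J
    · rw [if_pos (Finset.mem_filter.2 ⟨hs, s.2⟩), if_pos hs]
    · rw [if_neg (fun h => hs (Finset.mem_filter.1 h).1), if_neg hs]
      show _ = ψ (genZ ℚ m n s)
      unfold point genZ
      rw [if_pos s.2, if_pos s.2]
      simp only [map_sum, map_mul, map_prod, map_sub, map_natCast]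
  have hQ : ∀ s : Fin n, point n w1 z1 (s : ℕ) = φ (MvPolynomial.C ((β s : ℤ) : K)) := by
    intro s
    rw [hp1 s]
    have h1 : φ (MvPolynomial.C ((β s : ℤ) : K)) = ((β s : ℤ) : R) := by
      rw [map_intCast, map_intCast]
    rw [h1]
    by_cases hs : (s : ℕ) ∈ J
    · rw [if_pos (Finset.mem_filter.2 ⟨hs, s.2⟩)]
    · rw [if_neg (fun h => hs (Finset.mem_filter.1 h).1), hβJ _ hs]
      unfold point
      simp
  have hon := fun p : MvPolynomial (Fin n) ℤ => onl_psi (genZ ℚ m n) J (fun i => ((β i : ℤ) : K))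
    (fun i hi => by rw [hβJ i hi, Int.cast_zero]) φ (fun s : Fin n => point n w2 z2 (s : ℕ))
    (fun s : Fin n => point n w1 z1 (s : ℕ)) hP hQ p
  have hnd : ∀ p : MvPolynomial (Fin n) ℤ,
      MvPolynomial.eval (fun i : Fin n => β i) (topp p) ≠ 0 →
      (psi (fun i => ((β i : ℤ) : K)) (MvPolynomial.map (algebraMap D K)
        (Ph (genZ ℚ m n) J (up p)))).natDegree = p.totalDegree := by
    intro p hp
    rw [← natDegree_map_eq_of_injective hφ, hon]
    apply le_antisymm (Helper12_FV.natDegree_onl_le _ _ _)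
    apply le_natDegree_of_ne_zero
    rw [Helper12_FV.coeff_onl]
    have h1 : (fun s : Fin n => point n w1 z1 (s : ℕ)) = fun s : Fin n => ((β s : ℤ) : R) := by
      funext s
      rw [hQ s, map_intCast, map_intCast]
    rw [h1, eval₂_int (fun s : Fin n => β s)]
    exact Int.cast_ne_zero.2 hp
  apply hD n t1 t2 f g R w1 z1 w2 z2
  rw [← hon f, ← hon g, ← hnd f hβf, ← hnd g hβg, resultant_map_map]
  intro h0
  exact hres _ (hφ (h0.trans (map_zero φ).symm))

end Pool.Agent.PXE.H20
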